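import Mathlib

/-!
Compression lemma for residue classes of large moduli (CRT form).
-/

namespace Pool.RHC24

open Finset

theorem card_quad (p : ℕ) [Fact p.Prime] (hp : 3 ≤ p) (k : ZMod p) :
    2 * ((Finset.univ : Finset (ZMod p)).image (fun a => a * (k - a))).card ≤ p + 1 := by
  classical
  set f : ZMod p → ZMod p := fun a => a * (k - a) with hf
  have hcard : (Finset.univ : Finset (ZMod p)).card = p := by
    rw [Finset.card_univ, ZMod.card]
  have hsum := Finset.card_eq_sum_card_image f (Finset.univ : Finset (ZMod p))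
  rw [hcard] at hsum
  have h2 : (2 : ZMod p) ≠ 0 := by
    intro h
    have : ((2 : ℕ) : ZMod p) = 0 := by exact_mod_cast h
    rw [ZMod.natCast_eq_zero_iff] at this
    have := Nat.le_of_dvd (by norm_num) this
    omega
  have hfib : ∀ b ∈ (Finset.univ : Finset (ZMod p)).image f, b ≠ f (k / 2) →
      2 ≤ ((Finset.univ : Finset (ZMod p)).filter (fun a => f a = b)).card := by
    intro b hb hne
    obtain ⟨a, -, rfl⟩ := Finset.mem_image.1 hb
    have hsym : f (k - a) = f a := by simp only [hf]; ring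
    have hane : a ≠ k - a := by
      intro h
      apply hne
      have : a = k / 2 := by
        field_simp
        linear_combination h
      rw [← this]
    have : ({a, k - a} : Finset (ZMod p)) ⊆
        (Finset.univ : Finset (ZMod p)).filter (fun c => f c = f a) := by
      intro c hc
      simp only [Finset.mem_insert, Finset.mem_singleton] at hc
      rcases hc with rfl | rfl
      · simp
      · simp [hsym]
    calc 2 = ({a, k - a} : Finset (ZMod p)).card := (Finset.card_pair hane).symm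
      _ ≤ _ := Finset.card_le_card this
  set I := (Finset.univ : Finset (ZMod p)).image f with hI
  have hmem : f (k / 2) ∈ I := Finset.mem_image_of_mem f (Finset.mem_univ _)
  rw [← Finset.add_sum_erase I _ hmem] at hsum
  have h1 : 1 ≤ ((Finset.univ : Finset (ZMod p)).filter (fun a => f a = f (k / 2))).card := by
    apply Finset.card_pos.2
    exact ⟨k / 2, by simp⟩
  have h3 : (I.erase (f (k / 2))).card * 2 ≤ ∑ b ∈ I.erase (f (k / 2)),
      ((Finset.univ : Finset (ZMod p)).filter (fun a => f a = b)).card := by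
    rw [← smul_eq_mul]
    apply Finset.card_nsmul_le_sum
    intro b hb
    exact hfib b (Finset.mem_of_mem_erase hb) (Finset.ne_of_mem_erase hb)
  have h4 : (I.erase (f (k / 2))).card = I.card - 1 := Finset.card_erase_of_mem hmem
  have h5 : 1 ≤ I.card := Finset.card_pos.2 ⟨_, hmem⟩
  omega

/-- the residues `a (k - a)` mod `p` -/
noncomputable def AA (k : ℤ) (p : ℕ) : Finset ℤ :=
  (Finset.range p).image (fun a : ℕ => ((a : ℤ) * (k - a)) % p)

theorem AA_card {p : ℕ} (hp : p.Prime) (h3 : 3 ≤ p) (k : ℤ) :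
    ((AA k p).card : ℝ) ≤ 2 / 3 * p := by
  classical
  have : Fact p.Prime := ⟨hp⟩
  have h1 : (AA k p).card ≤
      ((Finset.univ : Finset (ZMod p)).image (fun a => a * ((k : ZMod p) - a))).card := by
    apply Finset.card_le_card_of_injOn (fun x : ℤ => (x : ZMod p))
    · intro x hx
      obtain ⟨a, ha, rfl⟩ := Finset.mem_image.1 hx
      refine Finset.mem_coe.2 (Finset.mem_image.2 ⟨(a : ZMod p), Finset.mem_univ _, ?_⟩)
      simp only [ZMod.intCast_mod]
      push_cast
      ring
    · intro x hx x' hx' h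
      obtain ⟨a, ha, rfl⟩ := Finset.mem_image.1 hx
      obtain ⟨a', ha', rfl⟩ := Finset.mem_image.1 hx'
      simp only at h
      rw [ZMod.intCast_eq_intCast_iff] at h
      have := h
      unfold Int.ModEq at this
      rw [Int.emod_emod_of_dvd _ (dvd_refl _), Int.emod_emod_of_dvd _ (dvd_refl _)] at this
      exact this
  have h2 := card_quad p h3 (k : ZMod p)
  have h4 : 2 * (AA k p).card ≤ p + 1 := by omega
  have h5 : 2 * ((AA k p).card : ℝ) ≤ p + 1 := by exact_mod_cast h4
  have h6 : (3 : ℝ) ≤ p := by exact_mod_cast h3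
  linarith

theorem mem_AA {p : ℕ} (hp : 0 < p) (k q : ℤ) : (q * (k - q)) % p ∈ AA k p := by
  have hpz : (0 : ℤ) < p := by exact_mod_cast hp
  refine Finset.mem_image.2 ⟨(q % p).toNat, ?_, ?_⟩
  · rw [Finset.mem_range]
    have h1 := Int.emod_lt_of_pos q hpz
    have h2 := Int.emod_nonneg q hpz.ne'
    omega
  · have h2 := Int.emod_nonneg q hpz.ne'
    rw [Int.toNat_of_nonneg h2]
    have h3 : q % (p : ℤ) ≡ q [ZMOD p] := Int.mod_modEq q p
    exact (h3.mul ((Int.ModEq.refl k).sub h3))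

/-- integers `1 .. y` whose residues modulo all `p ∈ P` lie in `AA k p` -/
noncomputable def W (y : ℕ) (P : Finset ℕ) (k : ℤ) : Finset ℕ :=
  (Finset.Icc 1 y).filter (fun n => ∀ p ∈ P, ((n : ℤ) % p) ∈ AA k p)

theorem W_card {y : ℕ} {P : Finset ℕ} (hP : ∀ p ∈ P, p.Prime ∧ 3 ≤ p) (hN : ∏ p ∈ P, p ≤ y)
    (k : ℤ) : ((W y P k).card : ℝ) ≤ 2 * y * (2 / 3 : ℝ) ^ P.card := by
  classical
  set N := ∏ p ∈ P, p with hNdef
  have hNpos : 0 < N := Finset.prod_pos fun p hp => (hP p hp).1.pos
  have h1 : (W y P k).card ≤ ((Finset.range (y / N + 1)) ×ˢ (P.pi (fun p => AA k p))).card := by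
    apply Finset.card_le_card_of_injOn
      (fun n : ℕ => ((n / N, fun p _ => (n : ℤ) % p) : ℕ × ((p : ℕ) → p ∈ P → ℤ)))
    · intro n hn
      obtain ⟨hn1, hn2⟩ := Finset.mem_filter.1 hn
      have hny := (Finset.mem_Icc.1 hn1).2
      refine Finset.mem_coe.2 (Finset.mem_product.2 ⟨?_, ?_⟩)
      · rw [Finset.mem_range]
        have := Nat.div_le_div_right (c := N) hny
        simp only
        omega
      · rw [Finset.mem_pi]
        exact fun p hp => hn2 p hp
    · intro n _ n' _ h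
      simp only [Prod.mk.injEq] at h
      obtain ⟨hd, hr⟩ := h
      have hdvd : (N : ℤ) ∣ (n : ℤ) - n' := by
        rw [hNdef, Nat.cast_prod]
        apply Finset.prod_dvd_of_coprime
        · intro p hp p' hp' hne
          exact (Int.isCoprime_iff_gcd_eq_one).2 (by
            have := (Nat.coprime_primes (hP p hp).1 (hP p' hp').1).2 hne
            simpa using this)
        · intro p hp
          have h2 := congrFun (congrFun hr p) hp
          exact Int.ModEq.dvd (show (n' : ℤ) ≡ n [ZMOD p] from h2.symm)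
      have hmod : n % N = n' % N := by
        have h3 : (n' : ℤ) ≡ n [ZMOD N] := Int.modEq_iff_dvd.2 hdvd
        have h4 : n' ≡ n [MOD N] := (Int.natCast_modEq_iff).1 h3
        exact h4.symm
      have e1 := Nat.div_add_mod n N
      have e2 := Nat.div_add_mod n' N
      rw [hd, hmod] at e1
      omega
  rw [Finset.card_product, Finset.card_range, Finset.card_pi] at h1
  have h2 : ((W y P k).card : ℝ) ≤ ((y / N + 1 : ℕ) : ℝ) * ∏ p ∈ P, ((AA k p).card : ℝ) := by
    exact_mod_cast h1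
  have h3 : ∏ p ∈ P, ((AA k p).card : ℝ) ≤ ∏ p ∈ P, (2 / 3 * (p : ℝ)) :=
    Finset.prod_le_prod (fun p _ => Nat.cast_nonneg _) fun p hp => AA_card (hP p hp).1 (hP p hp).2 k
  have h4 : ∏ p ∈ P, (2 / 3 * (p : ℝ)) = (2 / 3 : ℝ) ^ P.card * N := by
    rw [Finset.prod_mul_distrib, Finset.prod_const, hNdef]
    push_cast
    rfl
  have h5 : ((y / N + 1 : ℕ) : ℝ) * N ≤ 2 * y := by
    have h6 : (y / N + 1) * N ≤ 2 * y := by
      have := Nat.div_mul_le_self y N
      rw [add_mul, one_mul]
      omega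
    exact_mod_cast h6
  calc ((W y P k).card : ℝ) ≤ ((y / N + 1 : ℕ) : ℝ) * ∏ p ∈ P, ((AA k p).card : ℝ) := h2
    _ ≤ ((y / N + 1 : ℕ) : ℝ) * ((2 / 3 : ℝ) ^ P.card * N) := by
        rw [← h4]
        exact mul_le_mul_of_nonneg_left h3 (Nat.cast_nonneg _)
    _ = (((y / N + 1 : ℕ) : ℝ) * N) * (2 / 3 : ℝ) ^ P.card := by ring
    _ ≤ 2 * y * (2 / 3 : ℝ) ^ P.card := by gcongr

/-- **Compression.** One residue class for every integer `q ≥ y / K`, the union of all of them
inside `[1, y]` has at most `2 (2 K + 1) y (2/3)^|P|` elements. -/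
theorem crt_union (y K : ℕ) (P : Finset ℕ) (hP : ∀ p ∈ P, p.Prime ∧ 3 ≤ p)
    (hN : ∏ p ∈ P, p ≤ y) : ∃ U ⊆ Finset.Icc 1 y,
    (U.card : ℝ) ≤ (2 * K + 1) * (2 * y * (2 / 3 : ℝ) ^ P.card) ∧
    ∀ q : ℕ, 1 ≤ q → y ≤ K * q → ∃ r : ℕ, ∀ n ∈ Finset.Icc 1 y, n ≡ r [MOD q] → n ∈ U := by
  classical
  set N := ∏ p ∈ P, p with hNdef
  have hNpos : 0 < N := Finset.prod_pos fun p hp => (hP p hp).1.pos
  have hNz : (0 : ℤ) < N := by exact_mod_cast hNpos
  refine ⟨(Finset.Icc (-(K : ℤ)) K).biUnion (fun k => W y P k), ?_, ?_, ?_⟩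
  · intro n hn
    obtain ⟨k, -, hk⟩ := Finset.mem_biUnion.1 hn
    exact (Finset.mem_filter.1 hk).1
  · have h1 : (((Finset.Icc (-(K : ℤ)) K).biUnion (fun k => W y P k)).card : ℝ) ≤
        ∑ k ∈ Finset.Icc (-(K : ℤ)) K, ((W y P k).card : ℝ) := by
      exact_mod_cast Finset.card_biUnion_le
    refine h1.trans ?_
    refine (Finset.sum_le_card_nsmul _ _ _ (fun k _ => W_card hP hN k)).trans ?_
    rw [nsmul_eq_mul, Int.card_Icc]
    have h2 : ((K : ℤ) + 1 - -(K : ℤ)).toNat = 2 * K + 1 := by omega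
    rw [h2]
    push_cast
    exact le_rfl
  · intro q hq hyq
    refine ⟨((-((q : ℤ) ^ 2)) % N).toNat, ?_⟩
    set r : ℕ := ((-((q : ℤ) ^ 2)) % N).toNat with hr
    have hrz : (r : ℤ) = (-((q : ℤ) ^ 2)) % N :=
      Int.toNat_of_nonneg (Int.emod_nonneg _ hNz.ne')
    have hrN : (r : ℤ) < N := by rw [hrz]; exact Int.emod_lt_of_pos _ hNz
    intro n hn hmod
    have hn' := Finset.mem_Icc.1 hn
    have hdvd : (q : ℤ) ∣ (n : ℤ) - r := by
      have := (Int.natCast_modEq_iff).2 hmod
      exact Int.ModEq.dvd this.symm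
    obtain ⟨k, hk⟩ := hdvd
    have hqz : (1 : ℤ) ≤ q := by exact_mod_cast hq
    have hyz : (y : ℤ) ≤ K * q := by exact_mod_cast hyq
    have hNy : (N : ℤ) ≤ y := by exact_mod_cast hN
    have hnz : (n : ℤ) ≤ y := by exact_mod_cast hn'.2
    have hkK : k ∈ Finset.Icc (-(K : ℤ)) K := by
      rw [Finset.mem_Icc]
      constructor
      · by_contra hcon
        push Not at hcon
        have : k + 1 ≤ -(K : ℤ) := by omega
        nlinarith
      · by_contra hcon
        push Not at hcon
        have : (K : ℤ) + 1 ≤ k := by omega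
        nlinarith
    refine Finset.mem_biUnion.2 ⟨k, hkK, Finset.mem_filter.2 ⟨hn, fun p hp => ?_⟩⟩
    have hpN : (p : ℤ) ∣ N := by
      rw [hNdef]
      exact_mod_cast Finset.dvd_prod_of_mem (fun x => x) hp
    have hr2 : (r : ℤ) ≡ -((q : ℤ) ^ 2) [ZMOD p] := by
      rw [hrz]
      exact (Int.mod_modEq _ _).of_dvd hpN
    have hn2 : (n : ℤ) ≡ (q : ℤ) * (k - q) [ZMOD p] := by
      have e : (n : ℤ) = r + q * k := by linarith
      rw [e]
      calc (r : ℤ) + q * k ≡ -((q : ℤ) ^ 2) + q * k [ZMOD p] := hr2.add_right _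
        _ = q * (k - q) := by ring
    have h3 := mem_AA (hP p hp).1.pos k q
    have h4 : (n : ℤ) % p = (q * (k - q)) % p := hn2
    rw [h4]
    exact h3

/-- the odd primes up to `w` -/
noncomputable def PO (w : ℕ) : Finset ℕ := (Finset.range (w + 1)).filter (fun p => p.Prime ∧ 3 ≤ p)

theorem PO_prod (w : ℕ) : ∏ p ∈ PO w, p ≤ 4 ^ w := by
  refine le_trans ?_ (primorial_le_four_pow w)
  unfold primorial
  apply Finset.prod_le_prod_of_subset_of_one_le'
  · intro p hp
    have h := Finset.mem_filter.1 hp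
    exact Finset.mem_filter.2 ⟨h.1, h.2.1⟩
  · intro p hp _
    exact (Finset.mem_filter.1 hp).2.one_le

theorem PO_card (w : ℕ) : Nat.primeCounting w ≤ (PO w).card + 1 := by
  classical
  have h1 : Nat.primeCounting w = ((Finset.range (w + 1)).filter Nat.Prime).card := by
    rw [Nat.primeCounting, Nat.primeCounting', Nat.count_eq_card_filter_range]
  rw [h1]
  have h2 : (Finset.range (w + 1)).filter Nat.Prime ⊆ insert 2 (PO w) := by
    intro p hp
    have h := Finset.mem_filter.1 hp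
    by_cases h3 : 3 ≤ p
    · exact Finset.mem_insert_of_mem (Finset.mem_filter.2 ⟨h.1, h.2, h3⟩)
    · have := h.2.two_le
      have : p = 2 := by omega
      rw [this]
      exact Finset.mem_insert_self _ _
  exact (Finset.card_le_card h2).trans (Finset.card_insert_le _ _)

theorem ev_real : ∀ᶠ L : ℝ in Filter.atTop, 1000 ≤ L ∧ Real.log L ≤ L / 1000 := by
  have h := (Real.isLittleO_log_id_atTop).def (show (0 : ℝ) < 1 / 1000 by norm_num)
  filter_upwards [h, Filter.eventually_ge_atTop (1000 : ℝ)] with L h1 h2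
  refine ⟨h2, ?_⟩
  have h3 : (0 : ℝ) ≤ Real.log L := Real.log_nonneg (by linarith)
  simp only [id, Real.norm_eq_abs] at h1
  rw [abs_of_nonneg h3, abs_of_nonneg (by linarith : (0 : ℝ) ≤ L)] at h1
  linarith

/-- **All large moduli are free.** -/
theorem free : ∃ c : ℝ, 0 < c ∧ ∀ᶠ y : ℕ in Filter.atTop, ∃ U ⊆ Finset.Icc 1 y,
    (U.card : ℝ) ≤ (y : ℝ) ^ (1 - c / Real.log (Real.log y)) ∧
    ∀ q : ℕ, (y : ℝ) ^ (1 - c / Real.log (Real.log y)) ≤ q →
      ∃ r : ℕ, ∀ n ∈ Finset.Icc 1 y, n ≡ r [MOD q] → n ∈ U := by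
  refine ⟨1 / 100, by norm_num, ?_⟩
  have hL : Filter.Tendsto (fun y : ℕ => Real.log (y : ℝ)) Filter.atTop Filter.atTop :=
    Real.tendsto_log_atTop.comp tendsto_natCast_atTop_atTop
  filter_upwards [hL.eventually ev_real, Filter.eventually_ge_atTop 1] with y hy hy1
  obtain ⟨hL1, hL2⟩ := hy
  have hy0 : (0 : ℝ) < y := by exact_mod_cast hy1
  set L := Real.log (y : ℝ) with hLdef
  have hexp : Real.exp L = y := Real.exp_log hy0
  set l := Real.log L with hldef
  have hl1 : 1 ≤ l := by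
    rw [hldef, Real.le_log_iff_exp_le (by linarith)]
    have := Real.exp_one_lt_d9
    linarith
  have hl0 : 0 < l := by linarith
  have hLl : 1000 ≤ L / l := by
    rw [le_div_iff₀ hl0]
    linarith
  have hpow : (y : ℝ) ^ (1 - 1 / 100 / l) = y * Real.exp (-(L / l / 100)) := by
    rw [Real.rpow_def_of_pos hy0, ← hLdef, ← hexp, ← Real.exp_add]
    congr 1
    field_simp
    ring
  set w := ⌊L / 2⌋₊ with hw
  have hw1 : (w : ℝ) ≤ L / 2 := Nat.floor_le (by linarith)
  have hw2 : L / 2 < w + 1 := Nat.lt_floor_add_one _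
  set P := PO w with hP
  have hPp : ∀ p ∈ P, p.Prime ∧ 3 ≤ p := fun p hp => (Finset.mem_filter.1 hp).2
  have hN : ∏ p ∈ P, p ≤ y := by
    have h1 : ((∏ p ∈ P, p : ℕ) : ℝ) ≤ (4 : ℝ) ^ w := by exact_mod_cast PO_prod w
    have h2 : (4 : ℝ) ^ w ≤ y := by
      have h4 : (4 : ℝ) ≤ Real.exp 2 := by
        have : Real.exp 2 = Real.exp 1 * Real.exp 1 := by rw [← Real.exp_add]; norm_num
        rw [this]
        have h5 := Real.exp_one_gt_d9
        nlinarith
      calc (4 : ℝ) ^ w ≤ (Real.exp 2) ^ w := by gcongr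
        _ = Real.exp (w * 2) := by rw [← Real.exp_nat_mul]
        _ ≤ Real.exp L := Real.exp_le_exp.2 (by linarith)
        _ = y := hexp
    exact_mod_cast h1.trans h2
  have hcard : L / l / 8 ≤ (P.card : ℝ) := by
    have h1 := Chebyshev.pi_ge w
    have h2 : (Nat.primeCounting w : ℝ) ≤ P.card + 1 := by exact_mod_cast PO_card w
    have hw3 : (2 : ℝ) ≤ w := by linarith
    have h3 : 0 < Real.log w := Real.log_pos (by linarith)
    have h4 : Real.log w ≤ l := Real.log_le_log (by linarith) (by linarith)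
    have h5 : Real.log ((w : ℝ) + 1) ≤ L / 1000 :=
      (Real.log_le_log (by linarith) (by linarith)).trans hL2
    have h6 := Real.log_two_gt_d9
    have h7 : L / 3 ≤ (w : ℝ) * Real.log 2 - Real.log (w + 1) := by nlinarith
    have h8 : L / 3 / l ≤ ((w : ℝ) * Real.log 2 - Real.log (w + 1)) / Real.log w := by
      calc L / 3 / l ≤ L / 3 / Real.log w := by
            apply div_le_div_of_nonneg_left (by linarith) h3 h4
        _ ≤ _ := by
            apply div_le_div_of_nonneg_right h7 h3.le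
    have h9 : L / 3 / l = L / l / 3 := by ring
    rw [h9] at h8
    linarith
  set K := ⌈Real.exp (L / l / 100)⌉₊ with hK
  obtain ⟨U, hU, hUc, hUq⟩ := crt_union y K P hPp hN
  have hK1 : Real.exp (L / l / 100) ≤ K := Nat.le_ceil _
  have hK2 : (K : ℝ) ≤ Real.exp (L / l / 100) + 1 := (Nat.ceil_lt_add_one (by positivity)).le
  have hE1 : 1 ≤ Real.exp (L / l / 100) := Real.one_le_exp (by positivity)
  refine ⟨U, hU, ?_, ?_⟩
  · rw [hpow]
    have h1 : (2 / 3 : ℝ) ^ P.card ≤ Real.exp (-(L / l / 24)) := by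
      have h2 : (2 / 3 : ℝ) ≤ Real.exp (-(1 / 3)) := by
        have := Real.add_one_le_exp (-(1 / 3) : ℝ)
        linarith
      calc (2 / 3 : ℝ) ^ P.card ≤ (Real.exp (-(1 / 3))) ^ P.card := by gcongr
        _ = Real.exp (P.card * (-(1 / 3))) := by rw [← Real.exp_nat_mul]
        _ ≤ _ := Real.exp_le_exp.2 (by linarith)
    have h3 : (2 * (K : ℝ) + 1) ≤ 5 * Real.exp (L / l / 100) := by linarith
    have h4 : (10 : ℝ) ≤ Real.exp (L / l / 50) := by
      have := Real.add_one_le_exp (L / l / 50)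
      linarith
    calc (U.card : ℝ) ≤ (2 * K + 1) * (2 * y * (2 / 3 : ℝ) ^ P.card) := hUc
      _ ≤ (5 * Real.exp (L / l / 100)) * (2 * y * Real.exp (-(L / l / 24))) := by gcongr
      _ = y * (10 * (Real.exp (L / l / 100) * Real.exp (-(L / l / 24)))) := by ring
      _ ≤ y * (Real.exp (L / l / 50) * (Real.exp (L / l / 100) * Real.exp (-(L / l / 24)))) := by
          gcongr
      _ ≤ y * Real.exp (-(L / l / 100)) := by
          rw [← Real.exp_add, ← Real.exp_add]
          apply mul_le_mul_of_nonneg_left _ hy0.le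
          apply Real.exp_le_exp.2
          linarith
  · intro q hq
    rw [hpow] at hq
    have hq0 : (0 : ℝ) < q := lt_of_lt_of_le (by positivity) hq
    have hq1 : 1 ≤ q := by exact_mod_cast hq0
    apply hUq q hq1
    have h1 : (y : ℝ) ≤ K * q := by
      calc (y : ℝ) = Real.exp (L / l / 100) * (y * Real.exp (-(L / l / 100))) := by
            rw [Real.exp_neg]
            field_simp
        _ ≤ K * q := by gcongr
    exact_mod_cast h1

end Pool.RHC24
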